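import Pool.Agent.R122.PT.Main

/-!
# MP_bd47c3_lc, Q1 (full answer, affirmative): metrics of polytree Bayesian networks embed into
`ℓ₁` with constant distortion in `N^{o(1)}` (indeed `O(log⁴ N)`) dimensions

`R122BN.BayesNet V` (Bayesian networks on binary variables), `dist`, `underlying`, `EmbedsL1` are
defined in `Pool/Agent/R122/BN/Defs.lean`.
-/

namespace Pool.Agent.Results.MP_bd47c3_lc.PolytreeEmbedding

open R122BN Filter

/-- `k_C(N)`: the least `k` such that for every polytree network on `N` binary variables the metric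
`d(i, j) = Pr[X_i ≠ X_j]` embeds into `ℓ₁^k` with distortion at most `C`. -/
noncomputable def kC (C : ℝ) (N : ℕ) : ℕ :=
  sInf {k : ℕ | ∀ B : BayesNet (Fin N), B.underlying.IsTree → EmbedsL1 B.dist k C}

theorem mem_set (N : ℕ) : 1026 * (Nat.log 2 N + 2) ^ 4 ∈
    {k : ℕ | ∀ B : BayesNet (Fin N), B.underlying.IsTree → EmbedsL1 B.dist k 852226} := by
  intro B hB
  have := R122PT.embed B hB
  rwa [Fintype.card_fin] at this

theorem tendsto_aux : Tendsto (fun L : ℕ =>
    (Real.log 1026 + 4 * Real.log ((L : ℝ) + 2)) / ((L : ℝ) * Real.log 2)) atTop (nhds 0) := by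
  have hl2 : (0 : ℝ) < Real.log 2 := Real.log_pos (by norm_num)
  have hx : Tendsto (fun L : ℕ => (L : ℝ) + 2) atTop atTop :=
    tendsto_atTop_add_const_right _ _ tendsto_natCast_atTop_atTop
  have h0 := (Real.tendsto_pow_log_div_mul_add_atTop (Real.log 2) (-2 * Real.log 2) 0 hl2.ne').comp hx
  have h1 := (Real.tendsto_pow_log_div_mul_add_atTop (Real.log 2) (-2 * Real.log 2) 1 hl2.ne').comp hx
  have h2 := (h0.const_mul (Real.log 1026)).add (h1.const_mul 4)
  simp only [mul_zero, add_zero] at h2
  refine h2.congr ?_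
  intro L
  simp only [Function.comp, pow_zero, pow_one]
  have e : Real.log 2 * ((L : ℝ) + 2) + -2 * Real.log 2 = (L : ℝ) * Real.log 2 := by ring
  rw [e]
  ring

/-- **MP_bd47c3_lc, Q1.** There is a constant `C ≥ 1` such that `log k_C(N) / log N → 0`: metrics of
polytree Bayesian networks on `N` binary variables embed into `ℓ₁` with constant distortion in
`N^{o(1)}` dimensions. In fact `k_C(N) ≤ 1026 (⌊log₂ N⌋ + 2)⁴`; and the infimum defining `k_C(N)` is
attained, so that every polytree network on `N` variables does embed into `ℓ₁^{k_C(N)}` with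
distortion at most `C`. -/
theorem result : ∃ C : ℝ, 1 ≤ C ∧
    Tendsto (fun N : ℕ => Real.log (kC C N) / Real.log N) atTop (nhds 0) ∧
    (∀ N : ℕ, kC C N ≤ 1026 * (Nat.log 2 N + 2) ^ 4) ∧
    (∀ N : ℕ, ∀ B : BayesNet (Fin N), B.underlying.IsTree → EmbedsL1 B.dist (kC C N) C) := by
  have hle : ∀ N : ℕ, kC 852226 N ≤ 1026 * (Nat.log 2 N + 2) ^ 4 := fun N => Nat.sInf_le (mem_set N)
  refine ⟨852226, by norm_num, ?_, hle, ?_⟩
  · have hlog : Tendsto (fun N : ℕ => Nat.log 2 N) atTop atTop := by
      rw [tendsto_atTop_atTop]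
      intro b
      refine ⟨2 ^ b, fun N hN => ?_⟩
      exact Nat.le_log_of_pow_le (by norm_num) hN
    have h1 := tendsto_aux.comp hlog
    refine squeeze_zero' ?_ ?_ h1
    · filter_upwards with N
      exact div_nonneg (Real.log_natCast_nonneg _) (Real.log_natCast_nonneg _)
    · filter_upwards [eventually_ge_atTop 2] with N hN
      simp only [Function.comp]
      have hl2 : (0 : ℝ) < Real.log 2 := Real.log_pos (by norm_num)
      have hL : 1 ≤ Nat.log 2 N := Nat.le_log_of_pow_le (by norm_num) (by simpa using hN)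
      have hLR : (1 : ℝ) ≤ (Nat.log 2 N : ℝ) := by exact_mod_cast hL
      have hN0 : N ≠ 0 := by omega
      have hden : (Nat.log 2 N : ℝ) * Real.log 2 ≤ Real.log N := by
        rw [← Real.log_pow]
        apply Real.log_le_log (by positivity)
        exact_mod_cast Nat.pow_log_le_self 2 hN0
      have hdpos : 0 < (Nat.log 2 N : ℝ) * Real.log 2 := by positivity
      have hnum : Real.log (kC 852226 N) ≤
          Real.log 1026 + 4 * Real.log ((Nat.log 2 N : ℝ) + 2) := by
        rcases Nat.eq_zero_or_pos (kC 852226 N) with h0 | h0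
        · rw [h0, Nat.cast_zero, Real.log_zero]
          have a1 : (0 : ℝ) ≤ Real.log 1026 := Real.log_nonneg (by norm_num)
          have a2 : (0 : ℝ) ≤ Real.log ((Nat.log 2 N : ℝ) + 2) := Real.log_nonneg (by linarith)
          linarith
        · have h2 : (kC 852226 N : ℝ) ≤ 1026 * ((Nat.log 2 N : ℝ) + 2) ^ 4 := by
            exact_mod_cast hle N
          have h3 := Real.log_le_log (by exact_mod_cast h0) h2
          refine h3.trans (le_of_eq ?_)
          rw [Real.log_mul (by norm_num) (by positivity), Real.log_pow]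
          norm_num
      have hnn : 0 ≤ Real.log 1026 + 4 * Real.log ((Nat.log 2 N : ℝ) + 2) := by
        have a1 : (0 : ℝ) ≤ Real.log 1026 := Real.log_nonneg (by norm_num)
        have a2 : (0 : ℝ) ≤ Real.log ((Nat.log 2 N : ℝ) + 2) := Real.log_nonneg (by linarith)
        linarith
      exact div_le_div₀ hnn hnum hdpos hden
  · intro N
    exact Nat.sInf_mem ⟨_, mem_set N⟩

end Pool.Agent.Results.MP_bd47c3_lc.PolytreeEmbedding
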